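import Pool.Agent.Lib.MP_89fcdb_gt.H45.Deg

/-!
# MP_89fcdb_gt: assembly of the main statement
-/

open scoped BigOperators
open Set Topology Pool.Agent.Lib.MP_904b2a_gt

namespace Pool.Agent.Lib.MP_89fcdb_gt

noncomputable section

theorem lsCat_le {X : Type} [TopologicalSpace X] {k : ℕ} (h : CatLE X k) : lsCat X ≤ k :=
  sInf_le ⟨k, rfl, h⟩

theorem CatLE.mono {X : Type} [TopologicalSpace X] [Nonempty X] {m n : ℕ} (hmn : m ≤ n)
    (h : CatLE X m) : CatLE X n := by
  obtain ⟨U, h1, h2, h3⟩ := h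
  refine ⟨fun i => if h : (i : ℕ) < m + 1 then U ⟨i, h⟩ else ∅, fun i => ?_, fun i => ?_, ?_⟩
  · beta_reduce
    split_ifs with h
    · exact h1 _
    · exact isOpen_empty
  · beta_reduce
    by_cases h : (i : ℕ) < m + 1
    · have e : (if h : (i : ℕ) < m + 1 then U ⟨i, h⟩ else ∅) = U ⟨i, h⟩ := dif_pos h
      rw [e]
      exact h2 _
    · have e : (if h : (i : ℕ) < m + 1 then U ⟨i, h⟩ else ∅) = (∅ : Set X) := dif_neg h
      rw [e]
      obtain ⟨x⟩ := ‹Nonempty X›
      refine ⟨x, ?_⟩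
      have : (⟨Subtype.val, continuous_subtype_val⟩ : C((∅ : Set X), X)) =
          ContinuousMap.const _ x := by
        ext y
        exact absurd y.2 (notMem_empty _)
      rw [this]
  · rw [eq_univ_iff_forall] at h3 ⊢
    intro x
    obtain ⟨i, hi⟩ := mem_iUnion.mp (h3 x)
    refine mem_iUnion.mpr ⟨⟨i, by omega⟩, ?_⟩
    have hi' : (i : ℕ) < m + 1 := i.2
    simp only [hi', dite_true]
    exact hi

theorem le_lsCat {X : Type} [TopologicalSpace X] [Nonempty X] {k : ℕ} (h : ¬ CatLE X k) :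
    ((k + 1 : ℕ) : ℕ∞) ≤ lsCat X := by
  refine le_sInf ?_
  rintro _ ⟨m, rfl, hm⟩
  rw [Nat.cast_le]
  by_contra hlt
  exact h (hm.mono (by omega))

theorem mainStatement_of (hDeg : DegStatement) (hCore : CoreStatement) (hCatN : CatNStatement)
    (hProd : CatProdStatement) (hB : CatBStatement) (hRP : CatRPStatement)
    (hMan : ManStatement) (hChart : ChartStatement) (hTop : TopStatement)
    (hQuot : QuotStatement) : MainStatement := by
  obtain ⟨μ, ν, f, h1, h2, h3⟩ := hDeg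
  obtain ⟨⟨cM, tM, nM, eM⟩, cN, tN, nN, eN⟩ := hMan
  obtain ⟨⟨cS, pS⟩, -, cB, pB⟩ := hTop
  obtain ⟨cR, tR, -, -, -⟩ := hQuot S3 TS3
  have pR : PathConnectedSpace RP3 := by
    have hs : Function.Surjective TS3.proj := Quotient.mk_surjective
    exact hs.pathConnectedSpace TS3.proj.continuous
  have hM : CatLE M8 5 := hProd RP3 B 3 2 hRP hB
  have hN : ¬ CatLE N8 5 := by
    intro h
    obtain ⟨φ, hφ, hn⟩ := hCatN h
    exact hCore φ hφ hn
  refine ⟨M8, N8, inferInstance, inferInstance, ⟨cM, tM, nM, hChart 8 M8 eM⟩,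
    ⟨cN, tN, nN, hChart 8 N8 eN⟩, μ, ν, f, h1, h2, h3, lsCat_le hM, ?_⟩
  have : Nonempty N8 := nN.toNonempty
  exact le_lsCat hN

end

end Pool.Agent.Lib.MP_89fcdb_gt
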