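import Pool.Agent.Lib.MP_89fcdb_gt.Interfaces
import Pool.Agent.Lib.MP_89fcdb_gt.H74.Bun

/-!
# MP_89fcdb_gt: the two models of the Stiefel manifold
-/

open scoped ComplexConjugate
open Set Topology Pool.Agent.Lib.MP_904b2a_gt

namespace Pool.Agent.Lib.MP_89fcdb_gt

noncomputable section

/-- Triples as vectors. -/
def toV (u : ℂ × ℂ × ℂ) : EuclideanSpace ℂ (Fin 3) := WithLp.toLp 2 ![u.1, u.2.1, u.2.2]

/-- Vectors as triples. -/
def ofV (x : EuclideanSpace ℂ (Fin 3)) : ℂ × ℂ × ℂ := (x 0, x 1, x 2)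

theorem ofV_toV (u : ℂ × ℂ × ℂ) : ofV (toV u) = u := rfl

theorem toV_ofV (x : EuclideanSpace ℂ (Fin 3)) : toV (ofV x) = x := by
  ext i
  fin_cases i <;> rfl

theorem continuous_toV : Continuous toV := by
  unfold toV
  refine (PiLp.continuous_toLp 2 _).comp ?_
  refine continuous_pi (fun i => ?_)
  fin_cases i
  · exact continuous_fst
  · exact continuous_snd.fst
  · exact continuous_snd.snd

theorem continuous_ofV : Continuous ofV := by
  unfold ofV
  fun_prop

theorem inner_toV (u v : ℂ × ℂ × ℂ) : inner ℂ (toV u) (toV v) = h3 u v := by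
  rw [PiLp.inner_apply, Fin.sum_univ_three]
  simp only [toV, h3, RCLike.inner_apply]
  simp
  ring

theorem norm_toV (u : ℂ × ℂ × ℂ) : ‖toV u‖ ^ 2 = n3 u := by
  rw [EuclideanSpace.norm_sq_eq, Fin.sum_univ_three]
  simp only [toV, n3, Complex.normSq_eq_norm_sq]
  rfl

theorem norm_toV_eq_one (u : ℂ × ℂ × ℂ) : ‖toV u‖ = 1 ↔ n3 u = 1 := by
  rw [← norm_toV]
  have h := norm_nonneg (toV u)
  constructor
  · intro h1
    rw [h1, one_pow]
  · intro h1
    nlinarith

theorem toV_neg (u : ℂ × ℂ × ℂ) : toV (-u) = -toV u := by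
  ext i
  fin_cases i <;> rfl

/-- The comparison map. -/
def toPP : C(P, H74.PP (EuclideanSpace ℂ (Fin 3))) where
  toFun p := ⟨(toV p.1.1, toV p.1.2), (norm_toV_eq_one _).mpr p.2.1,
    (norm_toV_eq_one _).mpr p.2.2.1, by rw [inner_toV]; exact p.2.2.2⟩
  continuous_toFun := by
    refine Continuous.subtype_mk (Continuous.prodMk ?_ ?_) _
    · exact continuous_toV.comp (by fun_prop)
    · exact continuous_toV.comp (by fun_prop)

/-- The inverse of the comparison map. -/
def ofPP : C(H74.PP (EuclideanSpace ℂ (Fin 3)), P) where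
  toFun p := ⟨(ofV p.1.1, ofV p.1.2), by
    rw [← norm_toV_eq_one, toV_ofV]; exact p.2.1, by
    rw [← norm_toV_eq_one, toV_ofV]; exact p.2.2.1, by
    rw [← inner_toV, toV_ofV, toV_ofV]; exact p.2.2.2⟩
  continuous_toFun := by
    refine Continuous.subtype_mk (Continuous.prodMk ?_ ?_) _
    · exact continuous_ofV.comp (by fun_prop)
    · exact continuous_ofV.comp (by fun_prop)

theorem ofPP_toPP (p : P) : ofPP (toPP p) = p := rfl

theorem toPP_ofPP (p : H74.PP (EuclideanSpace ℂ (Fin 3))) : toPP (ofPP p) = p :=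
  Subtype.ext (Prod.ext (toV_ofV _) (toV_ofV _))

theorem ofPP_neg (p q : H74.PP (EuclideanSpace ℂ (Fin 3))) (h1 : q.1.1 = p.1.1)
    (h2 : q.1.2 = -p.1.2) : ofPP q = TP.τ (ofPP p) := by
  apply Subtype.ext
  refine Prod.ext ?_ ?_
  · change ofV q.1.1 = ofV p.1.1
    rw [h1]
  · change ofV q.1.2 = -ofV p.1.2
    rw [h2]
    rfl

/-- From the vector space model to the coordinate model. -/
theorem coreStatement_of
    (h : ∀ φ : C(H74.PP (EuclideanSpace ℂ (Fin 3)), ES 5),
      (∀ p q : H74.PP (EuclideanSpace ℂ (Fin 3)), q.1.1 = p.1.1 → q.1.2 = -p.1.2 →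
        φ q = -φ p) →
      ¬ (ContinuousMap.mk (Subtype.val : {p : H74.PP (EuclideanSpace ℂ (Fin 3)) |
        0 < (φ p).1 5} → H74.PP (EuclideanSpace ℂ (Fin 3))) continuous_subtype_val).Nullhomotopic) :
    CoreStatement := by
  intro φ hφ hn
  refine h (φ.comp ofPP) (fun p q h1 h2 => ?_) ?_
  · rw [ContinuousMap.comp_apply, ContinuousMap.comp_apply, ofPP_neg p q h1 h2, hφ]
  · obtain ⟨y, hy⟩ := hn
    let r : C({p : H74.PP (EuclideanSpace ℂ (Fin 3)) | 0 < ((φ.comp ofPP) p).1 5},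
        {p : P | 0 < (φ p).1 5}) := ⟨fun p => ⟨ofPP p.1, p.2⟩, by fun_prop⟩
    refine ⟨toPP y, ?_⟩
    have h1 := (ContinuousMap.Homotopic.comp (ContinuousMap.Homotopic.refl toPP)
      (ContinuousMap.Homotopic.comp hy (ContinuousMap.Homotopic.refl r)))
    convert h1 using 1
    · ext1 p
      exact (toPP_ofPP p.1).symm
    · rfl

end

end Pool.Agent.Lib.MP_89fcdb_gt
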