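import Pool.Agent.Lib.MP_89fcdb_gt.Interfaces

/-!
# MP_89fcdb_gt: charts
-/

open Set Topology

namespace Pool.Agent.Lib.MP_89fcdb_gt

noncomputable section

theorem chartStatement : ChartStatement := by
  intro n X _ h
  choose j hj hj0 using h
  let e : (Fin n → ℝ) ≃ₜ EuclideanSpace ℝ (Fin n) :=
    (EuclideanSpace.equiv (Fin n) ℝ).toHomeomorph.symm
  let c : X → OpenPartialHomeomorph X (EuclideanSpace ℝ (Fin n)) := fun x =>
    ((hj x).toOpenPartialHomeomorph (j x)).symm.trans e.toOpenPartialHomeomorph
  exact ⟨{
    atlas := range c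
    chartAt := c
    mem_chart_source := by
      intro x
      have h1 : x ∈ ((hj x).toOpenPartialHomeomorph (j x)).target := by
        rw [(hj x).toOpenPartialHomeomorph_target]
        exact ⟨0, hj0 x⟩
      simpa [c] using h1
    chart_mem_atlas := fun x => mem_range_self x }⟩

end

end Pool.Agent.Lib.MP_89fcdb_gt
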