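import Pool.Agent.Lib.MP_89fcdb_gt.Interfaces

/-!
# MP_89fcdb_gt: assembly of the degree part
-/

open scoped BigOperators
open Set Topology Pool.Agent.Lib.MP_904b2a_gt

namespace Pool.Agent.Lib.MP_89fcdb_gt

noncomputable section

variable {X Y : Type} [TopologicalSpace X] [TopologicalSpace Y]

theorem bdry_single (n : ℕ) (σ : Sing (n + 1) X) (k : ℤ) :
    bdry n (Finsupp.single σ k) =
      ∑ i : Fin (n + 2), Finsupp.single (σ.face i) ((-1) ^ (i : ℕ) * k) := by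
  unfold bdry
  rw [Finsupp.liftAddHom_apply_single, AddMonoidHom.finsetSum_apply]
  rfl

theorem push_single (n : ℕ) (f : C(X, Y)) (σ : Sing n X) (k : ℤ) :
    push n f (Finsupp.single σ k) = Finsupp.single (ContinuousMap.comp f σ) k := by
  unfold push
  exact Finsupp.mapDomain_single

theorem bdry_push (n : ℕ) (f : C(X, Y)) (c : Chain (n + 1) X) :
    bdry n (push (n + 1) f c) = push n f (bdry n c) := by
  induction c using Finsupp.induction_linear with
  | zero => simp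
  | add a b ha hb => rw [map_add, map_add, map_add, map_add, ha, hb]
  | single σ k =>
    rw [push_single, bdry_single, bdry_single, map_sum]
    refine Finset.sum_congr rfl (fun i _ => ?_)
    rw [push_single]
    rfl

theorem Homologous.sub {n : ℕ} {a b c d : Chain n X} (h : Homologous a b) (h' : Homologous c d) :
    Homologous (a - c) (b - d) := by
  obtain ⟨x, hx⟩ := h
  obtain ⟨y, hy⟩ := h'
  exact ⟨x - y, by rw [map_sub, hx, hy]; abel⟩

theorem Homologous.trans {n : ℕ} {a b c : Chain n X} (h : Homologous a b) (h' : Homologous b c) :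
    Homologous a c := by
  obtain ⟨x, hx⟩ := h
  obtain ⟨y, hy⟩ := h'
  exact ⟨x + y, by rw [map_add, hx, hy]; abel⟩

theorem Homologous.symm {n : ℕ} {a b : Chain n X} (h : Homologous a b) : Homologous b a := by
  obtain ⟨x, hx⟩ := h
  exact ⟨-x, by rw [map_neg, hx]; abel⟩

theorem Homologous.refl {n : ℕ} (a : Chain n X) : Homologous a a := ⟨0, by simp⟩

theorem Homologous.push {n : ℕ} {a b : Chain n X} (h : Homologous a b) (f : C(X, Y)) :
    Homologous (push n f a) (push n f b) := by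
  obtain ⟨x, hx⟩ := h
  exact ⟨Pool.Agent.Lib.MP_89fcdb_gt.push (n + 1) f x, by rw [bdry_push, hx, map_sub]⟩

theorem Homologous.mem_relBdr {n : ℕ} {a b : Chain n X} (h : Homologous a b) (S : Set X) :
    a - b ∈ relBdr n S := by
  obtain ⟨x, hx⟩ := h
  exact AddSubgroup.mem_sup_left ⟨x, hx⟩

theorem cycle_mem_relCyc {n : ℕ} {c : Chain (n + 1) X} (h : bdry n c = 0) (S : Set X) :
    c ∈ relCyc n S := by
  change bdry n c ∈ chainsIn n S
  rw [h]
  exact zero_mem _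

/-- From the local and global cyclicity to a fundamental class. -/
theorem exists_fundamental {n : ℕ} (x₀ : X) (g : Chain (n + 1) X)
    (hg : g ∈ relCyc n ({x₀}ᶜ : Set X))
    (hgen : ∀ z ∈ relCyc n ({x₀}ᶜ : Set X), ∃ k : ℤ, z - k • g ∈ relBdr (n + 1) ({x₀}ᶜ : Set X))
    (hs : ∀ x : X, (∀ z ∈ relCyc n ({x}ᶜ : Set X),
        ∃ c : Chain (n + 1) X, bdry n c = 0 ∧ z - c ∈ relBdr (n + 1) ({x}ᶜ : Set X)) ∧
      ∀ c : Chain (n + 1) X, bdry n c = 0 → c ∈ relBdr (n + 1) ({x}ᶜ : Set X) →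
        Homologous c 0) :
    ∃ μ : Chain (n + 1) X, IsFundamental μ ∧
      ∀ c : Chain (n + 1) X, bdry n c = 0 → ∃ k : ℤ, Homologous c (k • μ) := by
  obtain ⟨μ, hμ, hgμ⟩ := (hs x₀).1 g hg
  have hcyc : ∀ c : Chain (n + 1) X, bdry n c = 0 → ∃ k : ℤ, Homologous c (k • μ) := by
    intro c hc
    obtain ⟨k, hk⟩ := hgen c (cycle_mem_relCyc hc _)
    refine ⟨k, ?_⟩
    have h1 : c - k • μ ∈ relBdr (n + 1) ({x₀}ᶜ : Set X) := by
      have e : c - k • μ = (c - k • g) + k • (g - μ) := by rw [smul_sub]; abel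
      rw [e]
      exact add_mem hk (zsmul_mem hgμ k)
    have h2 : bdry n (c - k • μ) = 0 := by rw [map_sub, map_zsmul, hc, hμ, smul_zero, sub_zero]
    obtain ⟨b, hb⟩ := (hs x₀).2 _ h2 h1
    exact ⟨b, by rw [hb, sub_zero]⟩
  refine ⟨μ, ⟨hμ, fun x z hz => ?_⟩, hcyc⟩
  obtain ⟨c, hc, hzc⟩ := (hs x).1 z hz
  obtain ⟨k, hk⟩ := hcyc c hc
  refine ⟨k, ?_⟩
  have e : z - k • μ = (z - c) + (c - k • μ) := by abel
  rw [e]
  exact add_mem hzc (hk.mem_relBdr _)

theorem degStatement_of (hMap : MapStatement) (hFund : FundStatement) (hLoc : LocStatement)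
    (hLocGen : LocGenStatement) (hLH : LHStatement) (hUC1 : UC1Statement) (hUC2 : UC2Statement)
    (hUC3 : UC3Statement) (hMan : ManStatement) : DegStatement := by
  obtain ⟨f, x₀, hf⟩ := hMap
  obtain ⟨⟨x₁, hx₁⟩, y₁, hy₁⟩ := hFund
  obtain ⟨⟨_, _, _, eM⟩, _, _, _, eN⟩ := hMan
  have FM : ∀ x, Fund 8 M8 x := hLoc 7 M8 eM x₁ hx₁
  have FN : ∀ y, Fund 8 N8 y := hLoc 7 N8 eN y₁ hy₁
  obtain ⟨ι, hι⟩ := hLocGen 7 M8 eM x₀
  obtain ⟨g, hg, hgen⟩ := hUC3 7 M8 _ ι hι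
  have UM := fun x : M8 => hUC1 7 M8 ({x}ᶜ : Set M8) (fun A _ => FM x A)
  have UN := fun y : N8 => hUC1 7 N8 ({y}ᶜ : Set N8) (fun A _ => FN y A)
  obtain ⟨μ, hμ, hcyc⟩ := exists_fundamental x₀ g hg hgen UM
  have hb := hUC2 7 M8 N8 f (fun A _ => hLH 8 M8 N8 f x₀ hf (FM x₀) (FN (f x₀)) A)
  refine ⟨μ, push 8 f μ, f, hμ, ⟨?_, fun y z hz => ?_⟩, Homologous.refl _⟩
  · rw [bdry_push, hμ.1, map_zero]
  · obtain ⟨d, hd, hzd⟩ := (UN y).1 z hz
    obtain ⟨c, hc, hcd⟩ := hb d hd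
    obtain ⟨k, hk⟩ := hcyc c hc
    refine ⟨k, ?_⟩
    have h1 : Homologous d (k • push 8 f μ) := by
      rw [← map_zsmul]
      exact hcd.symm.trans (hk.push f)
    have e : z - k • push 8 f μ = (z - d) + (d - k • push 8 f μ) := by abel
    rw [e]
    exact add_mem hzd (h1.mem_relBdr _)

end

end Pool.Agent.Lib.MP_89fcdb_gt
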