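import Pool.Agent.Lib.MP_89fcdb_gt.Interfaces

/-!
# MP_89fcdb_gt: the map from `M8` to `N8`
-/

open scoped BigOperators ComplexConjugate
open Set Topology

namespace Pool.Agent.Lib.MP_89fcdb_gt

noncomputable section

/-- The first vector of the frame. -/
def vec1 (b : ℝ × ℂ × (ℂ × ℂ × ℂ)) : ℂ × ℂ × ℂ :=
  (-(conj b.2.2.2.2) * ((1 + b.1) / 2) - (1 - b.1) / 2,
    (1 - conj b.2.2.2.2) * (conj b.2.1 / 2), conj b.2.2.1)

/-- The conjugate of the cross product. -/
def ccr (u v : ℂ × ℂ × ℂ) : ℂ × ℂ × ℂ :=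
  (conj (u.2.1 * v.2.2 - u.2.2 * v.2.1), conj (u.2.2 * v.1 - u.1 * v.2.2),
    conj (u.1 * v.2.1 - u.2.1 * v.1))

theorem n3_eq (u : ℂ × ℂ × ℂ) : ((n3 u : ℝ) : ℂ) = h3 u u := by
  simp only [n3, h3, Complex.ofReal_add, Complex.normSq_eq_conj_mul_self]

theorem h3_ccr_left (u v : ℂ × ℂ × ℂ) : h3 u (ccr u v) = 0 := by
  simp only [h3, ccr, map_sub, map_mul]
  ring

theorem h3_ccr_right (u v : ℂ × ℂ × ℂ) : h3 v (ccr u v) = 0 := by
  simp only [h3, ccr, map_sub, map_mul]
  ring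

theorem h3_conj (u v : ℂ × ℂ × ℂ) : conj (h3 u v) = h3 v u := by
  simp only [h3, map_add, map_mul, Complex.conj_conj]
  ring

theorem h3_ccr_self (u v : ℂ × ℂ × ℂ) :
    h3 (ccr u v) (ccr u v) = h3 u u * h3 v v - h3 u v * h3 v u := by
  simp only [h3, ccr, map_sub, map_mul, Complex.conj_conj]
  ring

/-- Linear combinations. -/
def comb (a c : ℂ) (v w : ℂ × ℂ × ℂ) : ℂ × ℂ × ℂ :=
  (a * v.1 + c * w.1, a * v.2.1 + c * w.2.1, a * v.2.2 + c * w.2.2)

theorem h3_comb_right (u : ℂ × ℂ × ℂ) (a c : ℂ) (v w : ℂ × ℂ × ℂ) :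
    h3 u (comb a c v w) = a * h3 u v + c * h3 u w := by
  simp only [h3, comb]
  ring

theorem h3_comb_self (a c : ℂ) (v w : ℂ × ℂ × ℂ) (h : h3 v w = 0) :
    h3 (comb a c v w) (comb a c v w) = conj a * a * h3 v v + conj c * c * h3 w w := by
  have h' : h3 w v = 0 := by rw [← h3_conj, h, map_zero]
  have e : h3 (comb a c v w) (comb a c v w) = conj a * a * h3 v v + conj a * c * h3 v w +
      conj c * a * h3 w v + conj c * c * h3 w w := by
    simp only [h3, comb, map_add, map_mul]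
    ring
  rw [e, h, h']
  ring

section frame

variable (b : B)

theorem B.one : ((b.1.1 : ℂ)) ^ 2 + conj b.1.2.1 * b.1.2.1 = 1 := by
  have h := b.2.1
  have h2 : ((b.1.1 ^ 2 + Complex.normSq b.1.2.1 : ℝ) : ℂ) = 1 := by rw [h]; simp
  rw [Complex.ofReal_add, Complex.normSq_eq_conj_mul_self, Complex.ofReal_pow] at h2
  exact h2

theorem B.uu : h3 b.1.2.2 b.1.2.2 = 1 := by
  rw [← n3_eq, b.2.2.1, Complex.ofReal_one]

theorem B.c1 : b.1.2.1 * b.1.2.2.2.1 = (1 - b.1.1) * b.1.2.2.1 := b.2.2.2.1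

theorem B.c2 : conj b.1.2.1 * b.1.2.2.1 = (1 + b.1.1) * b.1.2.2.2.1 := b.2.2.2.2

theorem B.c1' : conj b.1.2.1 * conj b.1.2.2.2.1 = (1 - b.1.1) * conj b.1.2.2.1 := by
  have h := congrArg conj (B.c1 b)
  simpa only [map_mul, map_sub, map_one, Complex.conj_ofReal] using h

theorem B.c2' : b.1.2.1 * conj b.1.2.2.1 = (1 + b.1.1) * conj b.1.2.2.2.1 := by
  have h := congrArg conj (B.c2 b)
  simpa only [map_mul, map_add, map_one, Complex.conj_ofReal, Complex.conj_conj] using h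

theorem h3_vec1 : h3 b.1.2.2 (vec1 b.1) = 0 := by
  have h1 := B.c1' b
  simp only [h3, vec1]
  linear_combination (1 - conj b.1.2.2.2.2) / 2 * h1

theorem h3_vec1_self : h3 (vec1 b.1) (vec1 b.1) = 1 := by
  have h0 := B.one b
  have h1 := B.c1 b
  have h1' := B.c1' b
  have h2 := B.c2 b
  have h2' := B.c2' b
  have hu := B.uu b
  simp only [h3, vec1, map_add, map_mul, map_sub, map_neg, map_one, Complex.conj_ofReal,
    Complex.conj_conj, map_div₀, map_ofNat] at hu ⊢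
  linear_combination (1 - b.1.2.2.2.2) * (1 - conj b.1.2.2.2.2) / 4 * h0 +
    (1 + (b.1.1 : ℂ)) / 2 * hu + 1 / 2 * (conj b.1.2.2.2.1 * h2 - b.1.2.2.1 * h1')

/-- The second vector of the frame. -/
def vec2 (b : ℝ × ℂ × (ℂ × ℂ × ℂ)) : ℂ × ℂ × ℂ := ccr b.2.2 (vec1 b)

theorem h3_vec2 : h3 b.1.2.2 (vec2 b.1) = 0 := h3_ccr_left _ _

theorem h3_vec1_vec2 : h3 (vec1 b.1) (vec2 b.1) = 0 := h3_ccr_right _ _

theorem h3_vec2_self : h3 (vec2 b.1) (vec2 b.1) = 1 := by
  unfold vec2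
  rw [h3_ccr_self, B.uu, h3_vec1_self, h3_vec1]
  ring

end frame

theorem S3.one (q : S3) : conj q.1.1 * q.1.1 + conj q.1.2 * q.1.2 = 1 := by
  have h : ((Complex.normSq q.1.1 + Complex.normSq q.1.2 : ℝ) : ℂ) = 1 := by rw [q.2]; simp
  rwa [Complex.ofReal_add, Complex.normSq_eq_conj_mul_self, Complex.normSq_eq_conj_mul_self] at h

theorem n3_eq_one {u : ℂ × ℂ × ℂ} (h : h3 u u = 1) : n3 u = 1 := by
  rw [← n3_eq] at h
  exact_mod_cast h

/-- The lift of `f`. -/
def liftF : C(S3 × B, P) where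
  toFun x := ⟨(x.2.1.2.2, comb x.1.1.1 x.1.1.2 (vec1 x.2.1) (vec2 x.2.1)), x.2.2.2.1,
    n3_eq_one (by
      rw [h3_comb_self _ _ _ _ (h3_vec1_vec2 x.2), h3_vec1_self, h3_vec2_self, mul_one, mul_one,
        S3.one]), by
      rw [h3_comb_right, h3_vec1, h3_vec2, mul_zero, mul_zero, add_zero]⟩
  continuous_toFun := by
    refine Continuous.subtype_mk ?_ _
    have c1 : Continuous (fun x : S3 × B => vec1 x.2.1) := by
      unfold vec1
      fun_prop
    have c2 : Continuous (fun x : S3 × B => vec2 x.2.1) := by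
      unfold vec2 ccr vec1
      fun_prop
    refine Continuous.prodMk (by fun_prop) ?_
    unfold comb
    fun_prop

theorem liftF_neg (q : S3) (b : B) : liftF (TS3.τ q, b) = TP.τ (liftF (q, b)) := by
  apply Subtype.ext
  refine Prod.ext rfl ?_
  change comb (-q.1.1) (-q.1.2) _ _ = -comb q.1.1 q.1.2 _ _
  unfold comb
  simp only [Prod.neg_mk, Prod.mk.injEq]
  refine ⟨by ring, by ring, by ring⟩

/-! ### The quotient -/

theorem Invol.isOpenMap_proj {X : Type} [TopologicalSpace X] (T : Invol X) :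
    IsOpenMap T.proj := by
  intro U hU
  have e : T.proj ⁻¹' (T.proj '' U) = U ∪ T.τ ⁻¹' U := by
    ext x
    constructor
    · rintro ⟨y, hy, hxy⟩
      rcases (Quotient.exact hxy : x = y ∨ x = T.τ y) with h | h
      · left
        rw [h]
        exact hy
      · right
        change T.τ x ∈ U
        rw [h, T.sq]
        exact hy
    · rintro (h | h)
      · exact ⟨x, h, rfl⟩
      · exact ⟨T.τ x, h, Quotient.sound (Or.inr (T.sq x).symm)⟩
  change IsOpen (T.proj '' U)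
  rw [← isQuotientMap_quotient_mk'.isOpen_preimage]
  change IsOpen (T.proj ⁻¹' (T.proj '' U))
  rw [e]
  exact hU.union (hU.preimage T.τ.continuous)

theorem Invol.isOpenQuotientMap_proj {X : Type} [TopologicalSpace X] (T : Invol X) :
    IsOpenQuotientMap T.proj :=
  ⟨Quotient.mk_surjective, T.proj.continuous, T.isOpenMap_proj⟩

theorem Invol.proj_τ {X : Type} [TopologicalSpace X] (T : Invol X) (x : X) :
    T.proj (T.τ x) = T.proj x := Quotient.sound (Or.inr (T.sq x).symm)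

theorem Invol.proj_eq {X : Type} [TopologicalSpace X] (T : Invol X) {x y : X}
    (h : T.proj x = T.proj y) : y = x ∨ y = T.τ x := Quotient.exact h

/-- The map of sets underlying `f`. -/
def preF (x : M8) : N8 :=
  Quotient.lift (s := TS3.setoid) (fun q => TP.proj (liftF (q, x.2))) (by
    rintro q q' (rfl | rfl)
    · rfl
    · rw [liftF_neg, Invol.proj_τ]) x.1

theorem preF_proj (q : S3) (b : B) : preF (TS3.proj q, b) = TP.proj (liftF (q, b)) := rfl

/-- The map `f`. -/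
def mapF : C(M8, N8) where
  toFun := preF
  continuous_toFun := by
    have h : IsQuotientMap (Prod.map TS3.proj (id : B → B)) :=
      (TS3.isOpenQuotientMap_proj.prodMap (IsOpenQuotientMap.id)).isQuotientMap
    rw [h.continuous_iff]
    exact TP.proj.continuous.comp liftF.continuous

theorem mapF_proj (q : S3) (b : B) : mapF (TS3.proj q, b) = TP.proj (liftF (q, b)) := rfl

/-- Completeness of orthonormal frames. -/
theorem h3_complete {u v w : ℂ × ℂ × ℂ} (huu : h3 u u = 1) (hvv : h3 v v = 1) (hww : h3 w w = 1)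
    (huv : h3 u v = 0) (huw : h3 u w = 0) (hvw : h3 v w = 0) (x : ℂ × ℂ × ℂ) :
    x = (h3 u x * u.1 + h3 v x * v.1 + h3 w x * w.1,
      h3 u x * u.2.1 + h3 v x * v.2.1 + h3 w x * w.2.1,
      h3 u x * u.2.2 + h3 v x * v.2.2 + h3 w x * w.2.2) := by
  have hvu : h3 v u = 0 := by rw [← h3_conj, huv, map_zero]
  have hwu : h3 w u = 0 := by rw [← h3_conj, huw, map_zero]
  have hwv : h3 w v = 0 := by rw [← h3_conj, hvw, map_zero]
  let A : Matrix (Fin 3) (Fin 3) ℂ := !![u.1, v.1, w.1; u.2.1, v.2.1, w.2.1; u.2.2, v.2.2, w.2.2]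
  let A' : Matrix (Fin 3) (Fin 3) ℂ := !![conj u.1, conj u.2.1, conj u.2.2;
    conj v.1, conj v.2.1, conj v.2.2; conj w.1, conj w.2.1, conj w.2.2]
  have h1 : A' * A = 1 := by
    ext i j
    fin_cases i <;> fin_cases j <;>
      simp [A, A', Matrix.mul_apply, Fin.sum_univ_three] <;>
      first
      | exact huu
      | exact huv
      | exact huw
      | exact hvu
      | exact hvv
      | exact hvw
      | exact hwu
      | exact hwv
      | exact hww
  have h2 : A * A' = 1 := mul_eq_one_comm.mp h1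
  have e := fun i j => congrFun (congrFun h2 i) j
  have e00 := e 0 0
  have e01 := e 0 1
  have e02 := e 0 2
  have e10 := e 1 0
  have e11 := e 1 1
  have e12 := e 1 2
  have e20 := e 2 0
  have e21 := e 2 1
  have e22 := e 2 2
  simp [A, A', Matrix.mul_apply, Fin.sum_univ_three] at e00 e01 e02 e10 e11 e12 e20 e21 e22
  refine Prod.ext ?_ (Prod.ext ?_ ?_)
  · simp only [h3]
    linear_combination -x.1 * e00 - x.2.1 * e01 - x.2.2 * e02
  · simp only [h3]
    linear_combination -x.1 * e10 - x.2.1 * e11 - x.2.2 * e12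
  · simp only [h3]
    linear_combination -x.1 * e20 - x.2.1 * e21 - x.2.2 * e22

/-- Over this part `f` is a homeomorphism. -/
def PO : Set P := {p | p.1.1.1 ≠ 0 ∨ p.1.1.2.1 ≠ 0}

theorem isOpen_PO : IsOpen PO := by
  apply IsOpen.union
  · exact isOpen_ne_fun (by fun_prop) continuous_const
  · exact isOpen_ne_fun (by fun_prop) continuous_const

/-- The norm of `(u₁, u₂)`. -/
def ss (u : ℂ × ℂ × ℂ) : ℝ := Complex.normSq u.1 + Complex.normSq u.2.1

theorem ss_pos {u : ℂ × ℂ × ℂ} (h : u.1 ≠ 0 ∨ u.2.1 ≠ 0) : 0 < ss u := by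
  unfold ss
  rcases h with h | h
  · have := Complex.normSq_pos.mpr h
    have h2 := Complex.normSq_nonneg u.2.1
    linarith
  · have := Complex.normSq_pos.mpr h
    have h2 := Complex.normSq_nonneg u.1
    linarith

/-- The point of `B` over `u`. -/
def bu (u : ℂ × ℂ × ℂ) : ℝ × ℂ × (ℂ × ℂ × ℂ) :=
  ((Complex.normSq u.1 - Complex.normSq u.2.1) / ss u, 2 * u.1 * conj u.2.1 / (ss u : ℂ), u)

theorem bu_mem {u : ℂ × ℂ × ℂ} (hu : n3 u = 1) (h : u.1 ≠ 0 ∨ u.2.1 ≠ 0) :
    (bu u).1 ^ 2 + Complex.normSq (bu u).2.1 = 1 ∧ n3 (bu u).2.2 = 1 ∧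
      (bu u).2.1 * (bu u).2.2.2.1 = (1 - (bu u).1) * (bu u).2.2.1 ∧
      (starRingEnd ℂ) (bu u).2.1 * (bu u).2.2.1 = (1 + (bu u).1) * (bu u).2.2.2.1 := by
  have hs := ss_pos h
  have hs' : (ss u : ℂ) ≠ 0 := by exact_mod_cast hs.ne'
  have e : (ss u : ℂ) = conj u.1 * u.1 + conj u.2.1 * u.2.1 := by
    unfold ss
    rw [Complex.ofReal_add, Complex.normSq_eq_conj_mul_self, Complex.normSq_eq_conj_mul_self]
  refine ⟨?_, hu, ?_, ?_⟩
  · simp only [bu]
    rw [map_div₀, map_mul, map_mul, Complex.normSq_conj, Complex.normSq_ofReal, div_pow]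
    have h2 : Complex.normSq 2 = 4 := by norm_num [Complex.normSq_apply]
    rw [h2]
    field_simp
    unfold ss
    ring
  · simp only [bu]
    push_cast
    rw [Complex.normSq_eq_conj_mul_self, Complex.normSq_eq_conj_mul_self]
    field_simp
    rw [e]
    ring
  · simp only [bu]
    push_cast
    rw [Complex.normSq_eq_conj_mul_self, Complex.normSq_eq_conj_mul_self, map_div₀, map_mul,
      map_mul, Complex.conj_conj, Complex.conj_ofReal]
    field_simp
    rw [e]
    have h2 : conj (2 : ℂ) = 2 := map_ofNat _ 2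
    rw [h2]
    ring

theorem bu_unique (b : B) (h : b.1.2.2.1 ≠ 0 ∨ b.1.2.2.2.1 ≠ 0) : bu b.1.2.2 = b.1 := by
  have hs := ss_pos h
  have hs' : (ss b.1.2.2 : ℂ) ≠ 0 := by exact_mod_cast hs.ne'
  have e : (ss b.1.2.2 : ℂ) = conj b.1.2.2.1 * b.1.2.2.1 + conj b.1.2.2.2.1 * b.1.2.2.2.1 := by
    unfold ss
    rw [Complex.ofReal_add, Complex.normSq_eq_conj_mul_self, Complex.normSq_eq_conj_mul_self]
  have h1 := B.c1 b
  have h1' := B.c1' b
  have h2 := B.c2 b
  have h2' := B.c2' b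
  refine Prod.ext ?_ (Prod.ext ?_ rfl)
  · have key : (((Complex.normSq b.1.2.2.1 - Complex.normSq b.1.2.2.2.1) / ss b.1.2.2 : ℝ) : ℂ) =
        b.1.1 := by
      push_cast
      rw [Complex.normSq_eq_conj_mul_self, Complex.normSq_eq_conj_mul_self, div_eq_iff hs', e]
      linear_combination conj b.1.2.2.2.1 * h2 - b.1.2.2.1 * h1'
    exact_mod_cast key
  · change 2 * b.1.2.2.1 * conj b.1.2.2.2.1 / (ss b.1.2.2 : ℂ) = b.1.2.1
    rw [div_eq_iff hs', e]
    linear_combination -b.1.2.2.1 * h2' - conj b.1.2.2.2.1 * h1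

theorem P.uu (p : P) : h3 p.1.1 p.1.1 = 1 := by rw [← n3_eq, p.2.1, Complex.ofReal_one]

theorem P.vv (p : P) : h3 p.1.2 p.1.2 = 1 := by rw [← n3_eq, p.2.2.1, Complex.ofReal_one]

/-- The point of `B` over a point of `PO`. -/
def bP (p : PO) : B := ⟨bu p.1.1.1, bu_mem p.1.2.1 p.2⟩

theorem frame_decomp (p : PO) :
    p.1.1.2 = comb (h3 (vec1 (bP p).1) p.1.1.2) (h3 (vec2 (bP p).1) p.1.1.2) (vec1 (bP p).1)
      (vec2 (bP p).1) := by
  have h := h3_complete (B.uu (bP p)) (h3_vec1_self (bP p)) (h3_vec2_self (bP p))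
    (h3_vec1 (bP p)) (h3_vec2 (bP p)) (h3_vec1_vec2 (bP p)) p.1.1.2
  have h0 : h3 (bP p).1.2.2 p.1.1.2 = 0 := p.1.2.2.2
  rw [h0] at h
  refine h.trans ?_
  unfold comb
  simp only [zero_mul, zero_add]

theorem continuous_vec1 : Continuous vec1 := by
  unfold vec1
  fun_prop

theorem continuous_vec2 : Continuous vec2 := by
  unfold vec2 ccr vec1
  fun_prop

theorem continuous_bP : Continuous bP := by
  refine Continuous.subtype_mk ?_ _
  have h1 : Continuous (fun p : PO => p.1.1.1) := by fun_prop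
  have h2 : Continuous (fun p : PO => ss p.1.1.1) := by
    unfold ss
    fun_prop
  have h3 : ∀ p : PO, ss p.1.1.1 ≠ 0 := fun p => (ss_pos p.2).ne'
  refine Continuous.prodMk ?_ (Continuous.prodMk ?_ h1)
  · exact Continuous.div (by fun_prop) h2 h3
  · exact Continuous.div (by fun_prop) (Complex.continuous_ofReal.comp h2)
      (fun p => by exact_mod_cast h3 p)

theorem continuous_h3 {Z : Type} [TopologicalSpace Z] {f g : Z → ℂ × ℂ × ℂ} (hf : Continuous f)
    (hg : Continuous g) : Continuous (fun z => h3 (f z) (g z)) := by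
  unfold h3
  fun_prop

/-- The inverse of the lift of `f` over `PO`. -/
def invF : C(PO, S3 × B) where
  toFun p := (⟨(h3 (vec1 (bP p).1) p.1.1.2, h3 (vec2 (bP p).1) p.1.1.2), by
    have h := h3_comb_self (h3 (vec1 (bP p).1) p.1.1.2) (h3 (vec2 (bP p).1) p.1.1.2)
      (vec1 (bP p).1) (vec2 (bP p).1) (h3_vec1_vec2 (bP p))
    rw [← frame_decomp p, P.vv, h3_vec1_self, h3_vec2_self, mul_one, mul_one,
      ← Complex.normSq_eq_conj_mul_self, ← Complex.normSq_eq_conj_mul_self] at h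
    exact_mod_cast h.symm⟩, bP p)
  continuous_toFun := by
    refine Continuous.prodMk (Continuous.subtype_mk ?_ _) continuous_bP
    have h1 : Continuous (fun p : PO => (bP p).1) := continuous_subtype_val.comp continuous_bP
    exact Continuous.prodMk (continuous_h3 (continuous_vec1.comp h1) (by fun_prop))
      (continuous_h3 (continuous_vec2.comp h1) (by fun_prop))

theorem liftF_invF (p : PO) : liftF (invF p) = p := by
  apply Subtype.ext
  exact Prod.ext rfl (frame_decomp p).symm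

theorem h3_vec1_comb (b : B) (q : ℂ × ℂ) :
    h3 (vec1 b.1) (comb q.1 q.2 (vec1 b.1) (vec2 b.1)) = q.1 := by
  rw [h3_comb_right, h3_vec1_self, h3_vec1_vec2]
  ring

theorem h3_vec2_comb (b : B) (q : ℂ × ℂ) :
    h3 (vec2 b.1) (comb q.1 q.2 (vec1 b.1) (vec2 b.1)) = q.2 := by
  have h : h3 (vec2 b.1) (vec1 b.1) = 0 := by rw [← h3_conj, h3_vec1_vec2, map_zero]
  rw [h3_comb_right, h3_vec2_self, h]
  ring

theorem bP_liftF (q : S3) (b : B) (h : liftF (q, b) ∈ PO) : bP ⟨liftF (q, b), h⟩ = b :=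
  Subtype.ext (bu_unique b h)

theorem invF_liftF (q : S3) (b : B) (h : liftF (q, b) ∈ PO) :
    invF ⟨liftF (q, b), h⟩ = (q, b) := by
  have e := bP_liftF q b h
  refine Prod.ext (Subtype.ext ?_) e
  change (h3 (vec1 (bP ⟨liftF (q, b), h⟩).1) (comb q.1.1 q.1.2 (vec1 b.1) (vec2 b.1)),
    h3 (vec2 (bP ⟨liftF (q, b), h⟩).1) (comb q.1.1 q.1.2 (vec1 b.1) (vec2 b.1))) = q.1
  rw [e, h3_vec1_comb, h3_vec2_comb]

/-- The lift is open over `PO`. -/
theorem isOpen_image_liftF {W : Set (S3 × B)} (hW : IsOpen W) (hW' : ∀ x ∈ W, liftF x ∈ PO) :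
    IsOpen (liftF '' W) := by
  have e : liftF '' W = Subtype.val '' (invF ⁻¹' W) := by
    ext p
    constructor
    · rintro ⟨⟨q, b⟩, hx, rfl⟩
      refine ⟨⟨liftF (q, b), hW' _ hx⟩, ?_, rfl⟩
      change invF _ ∈ W
      rw [invF_liftF]
      exact hx
    · rintro ⟨p, hp, rfl⟩
      exact ⟨invF p, hp, liftF_invF p⟩
  rw [e]
  exact isOpen_PO.isOpenMap_subtype_val _ (hW.preimage invF.continuous)

/-- The open set over which `f` is a homeomorphism. -/
def VO : Set M8 := {x | x.2.1.2.2.1 ≠ 0 ∨ x.2.1.2.2.2.1 ≠ 0}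

theorem isOpen_VO : IsOpen VO := by
  apply IsOpen.union
  · exact isOpen_ne_fun (by fun_prop) continuous_const
  · exact isOpen_ne_fun (by fun_prop) continuous_const

theorem mapF_eq {q q' : S3} {b b' : B} (h : mapF (TS3.proj q, b) = mapF (TS3.proj q', b'))
    (hb : (TS3.proj q, b) ∈ VO) : (TS3.proj q, b) = ((TS3.proj q', b') : M8) := by
  rw [mapF_proj, mapF_proj] at h
  have hq : liftF (q, b) ∈ PO := hb
  rcases TP.proj_eq h with h | h
  · have h2 : invF ⟨liftF (q', b'), h ▸ hq⟩ = invF ⟨liftF (q, b), hq⟩ := by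
      congr 1
      exact Subtype.ext h
    rw [invF_liftF, invF_liftF] at h2
    rw [Prod.mk.injEq] at h2 ⊢
    exact ⟨by rw [h2.1], h2.2.symm⟩
  · rw [← liftF_neg] at h
    have hq' : liftF (TS3.τ q, b) ∈ PO := hb
    have h2 : invF ⟨liftF (q', b'), by rw [h]; exact hq'⟩ =
        invF ⟨liftF (TS3.τ q, b), hq'⟩ := by
      congr 1
      exact Subtype.ext h
    rw [invF_liftF, invF_liftF] at h2
    rw [Prod.mk.injEq] at h2 ⊢
    exact ⟨by rw [h2.1, Invol.proj_τ], h2.2.symm⟩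

theorem mapF_mem {q q' : S3} {b b' : B} (h : mapF (TS3.proj q, b) = mapF (TS3.proj q', b')) :
    b'.1.2.2 = b.1.2.2 := by
  rw [mapF_proj, mapF_proj] at h
  rcases TP.proj_eq h with h | h
  · exact congrArg (fun p : P => p.1.1) h
  · exact congrArg (fun p : P => p.1.1) h

theorem exists_rep (x : M8) : ∃ (q : S3) (b : B), x = (TS3.proj q, b) := by
  obtain ⟨a, b⟩ := x
  obtain ⟨q, rfl⟩ := Quotient.exists_rep a
  exact ⟨q, b, rfl⟩

theorem mapStatement : MapStatement := by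
  refine ⟨mapF, (TS3.proj ⟨(1, 0), by simp⟩, ⟨(1, 0, (1, 0, 0)), by simp [n3]⟩), VO, isOpen_VO,
    Or.inl one_ne_zero, ?_, ?_, ?_⟩
  · apply Subset.antisymm
    · rintro x ⟨y, hy, hxy⟩
      obtain ⟨q, b, rfl⟩ := exists_rep x
      obtain ⟨q', b', rfl⟩ := exists_rep y
      have h := mapF_mem hxy
      change b.1.2.2.1 ≠ 0 ∨ b.1.2.2.2.1 ≠ 0
      rw [h]
      exact hy
    · exact subset_preimage_image _ _
  · intro x hx y hy hxy
    obtain ⟨q, b, rfl⟩ := exists_rep x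
    obtain ⟨q', b', rfl⟩ := exists_rep y
    exact mapF_eq hxy hx
  · intro W hW hWo
    have e : mapF '' W = TP.proj '' (liftF '' (Prod.map TS3.proj id ⁻¹' W)) := by
      ext y
      constructor
      · rintro ⟨x, hx, rfl⟩
        obtain ⟨q, b, rfl⟩ := exists_rep x
        exact ⟨_, ⟨(q, b), hx, rfl⟩, rfl⟩
      · rintro ⟨_, ⟨⟨q, b⟩, hx, rfl⟩, rfl⟩
        exact ⟨_, hx, rfl⟩
    rw [e]
    refine TP.isOpenMap_proj _ (isOpen_image_liftF ?_ ?_)
    · exact hWo.preimage (TS3.proj.continuous.prodMap continuous_id)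
    · rintro ⟨q, b⟩ hx
      exact hW hx

end

end Pool.Agent.Lib.MP_89fcdb_gt
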