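import Pool.Agent.Lib.MP_89fcdb_gt.H45.Assembly
import Pool.Agent.Lib.MP_89fcdb_gt.H45.Chart
import Pool.Agent.Lib.MP_89fcdb_gt.H45.MapF
import Pool.Agent.Lib.MP_89fcdb_gt.H71.Cat
import Pool.Agent.Lib.MP_89fcdb_gt.H71.TC
import Pool.Agent.Lib.MP_89fcdb_gt.H61.CProd
import Pool.Agent.Lib.MP_89fcdb_gt.H55.CB
import Pool.Agent.Lib.MP_89fcdb_gt.H99.CatRP
import Pool.Agent.Lib.MP_89fcdb_gt.H68.Funds
import Pool.Agent.Lib.MP_89fcdb_gt.H35.Loc
import Pool.Agent.Lib.MP_89fcdb_gt.H35.UC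
import Pool.Agent.Lib.MP_89fcdb_gt.H27.TH
import Pool.Agent.Lib.MP_89fcdb_gt.H4.GS
import Pool.Agent.Lib.MP_89fcdb_gt.H4.LH
import Pool.Agent.Lib.MP_89fcdb_gt.H3.Quot
import Pool.Agent.Lib.MP_89fcdb_gt.H52.TS3
import Pool.Agent.Lib.MP_89fcdb_gt.H7.TrivB
import Pool.Agent.Lib.MP_89fcdb_gt.H41.TP
import Pool.Agent.Lib.MP_89fcdb_gt.H14.Top
import Pool.Agent.Lib.MP_89fcdb_gt.H14.Closed

/-!
# MP_89fcdb_gt: everything except the cohomological core
-/

namespace Pool.Agent.Lib.MP_89fcdb_gt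

theorem topQ : TopStatement := H14.top

theorem fund' : FundStatement :=
  H68.fundStatement_of (H4.gs TH27.thomStatement) H52.trivS3 H41.trivP H7.trivB H71.tc topQ
    H3.quot

theorem man' : ManStatement := H14.closed H3.quot H52.trivS3 H41.trivP H7.trivB topQ

theorem deg' : DegStatement :=
  degStatement_of mapStatement fund' H35.loc (H35.locGen TH27.thomStatement) H4.lh H35.uc1
    H35.uc2 H35.uc3 man'

/-- Everything except the cohomological core. -/
theorem main_of_core (h : CoreStatement) : MainStatement :=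
  mainStatement_of deg' h (H71.catN H3.quot topQ) H61.catProdStatement H55.catB H99.catRP man'
    chartStatement topQ H3.quot

end Pool.Agent.Lib.MP_89fcdb_gt
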