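import Pool.Agent.Lib.MP_89fcdb_gt.H45.Final0
import Pool.Agent.Lib.MP_89fcdb_gt.H83.CoreS

/-!
# MP_89fcdb_gt: the main statement
-/

namespace Pool.Agent.Lib.MP_89fcdb_gt

/-- There are closed connected oriented `8`-manifolds `M`, `N` and a map `M → N` of degree one
with `cat(M) ≤ 5 < 6 ≤ cat(N)`. -/
theorem mainStatement : MainStatement := main_of_core H83.coreStatement

end Pool.Agent.Lib.MP_89fcdb_gt
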